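import Mathlib
import Pool.Agent.H50ET.Final2
import Pool.Agent.H50ET.Weil

set_option autoImplicit false

namespace Pool.Agent.Results.MP_44a246_nt.ErrorTermExponent

open NumberField IsDedekindDomain

/-- The local height at the prime `v` of the point with homogeneous coordinates `x`, relative to
the hypersurface `F = 0`, where `F` is a form. -/
noncomputable def weil {K : Type} [Field K] [NumberField K] {n : ℕ}
    (v : HeightOneSpectrum (𝓞 K)) (F : MvPolynomial (Fin (n + 1)) K) (x : Fin (n + 1) → K) : ℝ :=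
  Real.log ((⨆ s, FinitePlace.mk v (F.coeff s)) * (⨆ j, FinitePlace.mk v (x j)) ^ F.totalDegree /
    FinitePlace.mk v (MvPolynomial.eval x F))

/-- The truncated counting function, relative to the sum of the hypersurfaces `F i = 0`, of the
`K`-rational point with homogeneous coordinates `x`: the sum of `log N(v)` over the primes `v`
outside `S` at which the local height is positive. -/
noncomputable def truncated {K : Type} [Field K] [NumberField K] {n r : ℕ}
    (S : Set (HeightOneSpectrum (𝓞 K))) (F : Fin r → MvPolynomial (Fin (n + 1)) K)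
    (x : Fin (n + 1) → K) : ℝ :=
  ∑ᶠ v ∈ {v : HeightOneSpectrum (𝓞 K) | v ∉ S ∧ 0 < ∑ i, weil v (F i) x},
    Real.log (Ideal.absNorm v.asIdeal : ℝ)

/-- Let `D` be a sum of hypersurfaces `F i = 0` of `ℙ^n` over a number field `K`, of degree
`κ = ∑ d i`, among which there are `n + 2` hyperplanes in general position, so that
`h_{K_X + D} = (κ - n - 1) h`. Outside of every hypersurface `Φ = 0` (over any extension of `K`)
there are points `P ∈ ℙ^n(K)` of arbitrarily large height with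
`(κ - n - 1) h(P) ≥ N_S^{(1)}(D, P) + c h(P)^{n / (n + 1)} / log h(P)`, `c = (κ + deg Φ + 1)^{-n}`,
for all sets `S` of primes. -/
theorem result :
    ∀ (K : Type) [Field K] [NumberField K] (n r : ℕ), 1 ≤ n →
      ∀ (F : Fin r → MvPolynomial (Fin (n + 1)) K) (d : Fin r → ℕ),
      (∀ i, F i ≠ 0) → (∀ i, (F i).IsHomogeneous (d i)) →
      ∀ τ : Fin (n + 2) → Fin r, Function.Injective τ → (∀ j, d (τ j) = 1) →
      (∀ j₀, ∀ x : Fin (n + 1) → K,
        (∀ j, j ≠ j₀ → MvPolynomial.eval x (F (τ j)) = 0) → x = 0) →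
      ∀ (Ω : Type) [Field Ω] [Algebra K Ω] (Φ : MvPolynomial (Fin (n + 1)) Ω), Φ ≠ 0 →
      ∀ B : ℝ, ∃ x : Fin (n + 1) → K,
        MvPolynomial.eval (fun j => algebraMap K Ω (x j)) Φ ≠ 0 ∧
        (∀ i, MvPolynomial.eval x (F i) ≠ 0) ∧ B ≤ Height.logHeight x ∧
        ∀ S : Set (HeightOneSpectrum (𝓞 K)),
          truncated S F x + 1 / ((∑ i, d i : ℝ) + Φ.totalDegree + 1) ^ n *
            (Height.logHeight x ^ ((n : ℝ) / (n + 1)) / Real.log (Height.logHeight x)) ≤
          ((∑ i, d i : ℝ) - n - 1) * Height.logHeight x := by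
  intro K _ _ n r hn F d hF0 hF τ hτ hτ1 hgp Ω _ _ Φ hΦ B
  have hn0 : (0 : ℝ) < n := by exact_mod_cast hn
  set q : ℕ := (∑ i, d i + Φ.totalDegree + 1) ^ n with hq
  have hq1 : 1 ≤ q := Nat.one_le_pow _ _ (by omega)
  have hqR : (1 : ℝ) ≤ q := by exact_mod_cast hq1
  have hqc : ((∑ i, d i : ℝ) + Φ.totalDegree + 1) ^ n = (q : ℝ) := by
    rw [hq]
    push_cast
    rfl
  rw [hqc]
  have hc : 1 / (q : ℝ) * ((q : ℕ) : ℝ) ^ ((n : ℝ) / (n + 1)) <
      (Module.finrank ℚ K : ℝ) ^ ((1 : ℝ) / (n + 1)) * (((n : ℝ) + 1) ^ 2 / n) := by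
    have h1 : 1 / (q : ℝ) * ((q : ℕ) : ℝ) ^ ((n : ℝ) / (n + 1)) ≤ 1 := by
      rw [one_div, inv_mul_le_iff₀ (by linarith), mul_one]
      calc (q : ℝ) ^ ((n : ℝ) / (n + 1)) ≤ (q : ℝ) ^ (1 : ℝ) := by
            refine Real.rpow_le_rpow_of_exponent_le hqR ?_
            rw [div_le_one (by linarith)]
            linarith
        _ = q := Real.rpow_one _
    have h2 : 1 < ((n : ℝ) + 1) ^ 2 / n := by
      rw [lt_div_iff₀ hn0]
      nlinarith
    have h3 : 1 ≤ (Module.finrank ℚ K : ℝ) ^ ((1 : ℝ) / (n + 1)) := by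
      refine Real.one_le_rpow ?_ (by positivity)
      exact_mod_cast Module.finrank_pos
    calc _ ≤ 1 := h1
      _ < ((n : ℝ) + 1) ^ 2 / n := h2
      _ ≤ _ := le_mul_of_one_le_left (by positivity) h3
  obtain ⟨x, h1, h2, h3, h4, h5⟩ := Pool.Agent.H50ET.contact_main hn F hF0 d hF τ hτ hτ1 hgp Φ hΦ
    (1 / (q : ℝ)) hc B
  have hdeg : ∀ i, (F i).totalDegree = d i := fun i => (hF i).totalDegree (hF0 i)
  refine ⟨x, h1, h2, h3, fun S => ?_⟩
  have hsub : ∀ v : HeightOneSpectrum (𝓞 K), 0 < ∑ i, weil v (F i) x → ∃ i,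
      Pool.Agent.W231.V.fv v (MvPolynomial.eval x (F i)) <
        (⨆ s, Pool.Agent.W231.V.fv v ((F i).coeff s)) *
          (⨆ j, Pool.Agent.W231.V.fv v (x j)) ^ d i := by
    intro v hv
    obtain ⟨i, hi⟩ := Pool.Agent.H50ET.exists_of_sum_log_pos v F x h2 hv
    rw [hdeg] at hi
    exact ⟨i, hi⟩
  have hfin' : {v : HeightOneSpectrum (𝓞 K) | v ∉ S ∧ 0 < ∑ i, weil v (F i) x}.Finite :=
    h4.subset fun v hv => hsub v hv.2
  have htr : truncated S F x = ∑ v ∈ hfin'.toFinset, Pool.Agent.W231.V.ell v := by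
    unfold truncated
    rw [finsum_mem_eq_finite_toFinset_sum _ hfin']
    rfl
  rw [htr]
  exact h5 hfin'.toFinset fun v hv => hsub v (hfin'.mem_toFinset.1 hv).2

end Pool.Agent.Results.MP_44a246_nt.ErrorTermExponent
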