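import Mathlib
import Pool.Agent.H10VJ.Asm

/-!
The truncated Vojta inequality is sharp on every hyperelliptic curve and for every divisor pulled
back from the line, and its error term is more than a multiple of the logarithm of the height.

Let `X : y ^ 2 = f(x)` have genus `g ≥ 2`. Over a number field `M` which contains the branch points,
the double cover `E` of the line branched at four of them is an elliptic curve, and `X ×_ℙ¹ E` is an
unramified double cover of `X` and a double cover of `E` with `2 (2 g - 2)` branch points. By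
repeated doubling there are points `Q_k` of `E(M)` of height `O(4 ^ k)` which tend to one of these
branch points at the primes above `2`, with distance `O(2 ^ (-k))`. The field generated by a point
of the cover above `Q_k` is the field of the square root of a number which is divisible by a large
power of `2`, and this makes its discriminant small.
-/

set_option autoImplicit false

namespace Pool.Agent.Results.MP_44a246_nt.SharpOnHyperelliptic

open NumberField IsDedekindDomain Height Polynomial Module

/-- The height of `x ∈ L`, normalised relative to `K`: it is `h(x)` for `x` in `K`, and it does not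
depend on the field `L` which contains `x`. -/
noncomputable def height (K : Type) {L : Type} [Field K] [NumberField K] [Field L] [NumberField L]
    [Algebra K L] (x : L) : ℝ :=
  logHeight₁ x / finrank K L

/-- The logarithmic discriminant `d_{L/K}`, normalised relative to `K`, that is
`log N(D_{L/K}) / [L : K] = log |d_L| / [L : K] - log |d_K|`. -/
noncomputable def logDisc (K L : Type) [Field K] [NumberField K] [Field L] [NumberField L]
    [Algebra K L] : ℝ :=
  Real.log |(discr L : ℝ)| / finrank K L - Real.log |(discr K : ℝ)|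

/-- The primes of `L` which do not lie above a prime of `S` and at which a point with first
coordinate `x` meets the divisor `b(x) = 0`: those with `|x| ≤ 1` and `|b(x)| < 1`. -/
def meets (K : Type) {L : Type} [Field K] [NumberField K] [Field L] [NumberField L] [Algebra K L]
    (S : Finset (HeightOneSpectrum (𝓞 K))) (b : K[X]) (x : L) : Set (HeightOneSpectrum (𝓞 L)) :=
  {w | (∀ v ∈ S, w.asIdeal.comap (algebraMap (𝓞 K) (𝓞 L)) ≠ v.asIdeal) ∧
    w.valuation L x ≤ 1 ∧ w.valuation L ((b.map (algebraMap K L)).eval x) < 1}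

/-- The truncated counting function `N_S^{(1)}(D, P)` for `D : b(x) = 0` and a point `P` with first
coordinate `x` over `L`, normalised relative to `K`. -/
noncomputable def truncated (K : Type) {L : Type} [Field K] [NumberField K] [Field L]
    [NumberField L] [Algebra K L] (S : Finset (HeightOneSpectrum (𝓞 K))) (b : K[X]) (x : L) : ℝ :=
  (∑ᶠ w ∈ meets K S b x, Real.log (Ideal.absNorm w.asIdeal : ℝ)) / finrank K L

section Aux
open Pool.Agent.W231.V Pool.Agent.Y733.VR Pool.Agent.H10VJ

variable {K L : Type} [Field K] [NumberField K] [Field L] [NumberField L] [Algebra K L]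

lemma height_eq (x : L) : height K x = finrank ℚ K * hh x := by
  unfold height hh
  rw [finrank_tower K L]
  have h1 : (0 : ℝ) < finrank ℚ K := deg_pos
  have h2 : (0 : ℝ) < finrank K L := by exact_mod_cast finrank_pos
  field_simp

lemma logDisc_eq : logDisc K L = finrank ℚ K * (ld L - ld K) := by
  unfold logDisc ld
  rw [finrank_tower K L]
  have h1 : (0 : ℝ) < finrank ℚ K := deg_pos
  have h2 : (0 : ℝ) < finrank K L := by exact_mod_cast finrank_pos
  field_simp

lemma valuation_lt (w : HeightOneSpectrum (𝓞 L)) (x : L) : w.valuation L x < 1 → fv w x < 1 := by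
  intro h
  by_contra hx
  rcases eq_or_ne x 0 with rfl | h0
  · rw [map_zero] at hx
    exact hx one_pos
  have h1 : fv w x⁻¹ ≤ 1 := by
    rw [map_inv₀]
    exact inv_le_one_of_one_le₀ (not_lt.1 hx)
  rw [fv_le_one_iff, map_inv₀] at h1
  have h2 : w.valuation L x ≠ 0 := (Valuation.ne_zero_iff _).2 h0
  exact absurd ((inv_le_one₀ (zero_lt_iff.2 h2)).1 h1) (not_le.2 h)

lemma meets_finite {S : Finset (HeightOneSpectrum (𝓞 K))} {b : K[X]} {x : L}
    (hb : (b.map (algebraMap K L)).eval x ≠ 0) : (meets K S b x).Finite := by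
  refine (fv_support_finite hb).subset ?_
  rintro w ⟨-, -, h⟩
  exact (valuation_lt w _ h).ne

lemma truncated_le {S : Finset (HeightOneSpectrum (𝓞 K))} {b : K[X]} {x : L}
    (hb : (b.map (algebraMap K L)).eval x ≠ 0) :
    truncated K S b x ≤ height K ((b.map (algebraMap K L)).eval x) := by
  unfold truncated height
  refine div_le_div_of_nonneg_right ?_ (Nat.cast_nonneg _)
  have hfin := meets_finite (S := S) hb
  rw [finsum_mem_eq_finite_toFinset_sum _ hfin]
  refine weight_le hb hfin.toFinset fun w hw => ?_
  exact valuation_lt w _ ((Set.Finite.mem_toFinset hfin).1 hw).2.2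

end Aux

open Pool.Agent.W231.V Pool.Agent.Y733.VR Pool.Agent.H10VJ

/-- **The truncated Vojta inequality is sharp on every hyperelliptic curve, with an error term
greater than `c log h` for all `c < [K : ℚ] / 4`.** Let `f ∈ K[x]` be squarefree of degree at least
`5`, let `X` be the hyperelliptic curve `y ^ 2 = f(x)`, of genus `g = ⌊(deg f - 1) / 2⌋ ≥ 2`, let
`b ∈ K[x]` be squarefree and prime to `f` (for example `b = 1`) and let `D` be the divisor
`b(x) = 0` of `X`. Then `h_{K_X + D}(P) = (g - 1 + deg b) h(x(P)) + O(1)`. There is `r` such that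
for all finite sets `S` of primes, all `c < [K : ℚ] / 4` and all `C` there is a point `P = (x, y)`
of `X`, of degree at most `r` over `K`, not on `D`, with `h(x) ≥ C` and
`N_S^{(1)}(D, P) + d_{K(P)/K} + c log h(x) + C ≤ (g - 1 + deg b) h(x)`. -/
theorem result (K : Type) [Field K] [NumberField K] (f b : K[X]) (hf : f.Separable)
    (hf5 : 5 ≤ f.natDegree) (hb : b.Separable) (_hfb : IsCoprime f b) :
    ∃ r : ℕ, ∀ (S : Finset (HeightOneSpectrum (𝓞 K))) (c C : ℝ), c < (finrank ℚ K : ℝ) / 4 →
      ∃ (L : Type) (_ : Field L) (_ : NumberField L) (_ : Algebra K L) (x y : L),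
        -- `(x, y)` is a point of the curve, it generates `L`, and `[L : K] ≤ r`
        y ^ 2 = (f.map (algebraMap K L)).eval x ∧ IntermediateField.adjoin K {x, y} = ⊤ ∧
        finrank K L ≤ r ∧
        -- it is not on `D` and its height is large
        (b.map (algebraMap K L)).eval x ≠ 0 ∧ C ≤ height K x ∧
        truncated K S b x + logDisc K L + c * Real.log (height K x) + C ≤
          (((f.natDegree - 1) / 2 - 1 + b.natDegree : ℕ) : ℝ) * height K x := by
  obtain ⟨M, fM, nM, aM, C1, k0, hk⟩ := exists_level hf hf5 hb.ne_zero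
  obtain ⟨C2, hC2⟩ := hh_eval_le (b.map (algebraMap K M)) (N := b.natDegree)
    natDegree_map_le
  refine ⟨2 * finrank K M, ?_⟩
  intro S c C hc
  have hn : (1 : ℝ) ≤ finrank ℚ K := by exact_mod_cast (finrank_pos (R := ℚ) (M := K))
  have hn0 : (0 : ℝ) < finrank ℚ K := by linarith
  have hlog2 : 0 < Real.log 2 := Real.log_pos (by norm_num)
  have hlog4 : Real.log 4 = 2 * Real.log 2 := by
    rw [show (4 : ℝ) = 2 ^ 2 by norm_num, Real.log_pow]; push_cast; ring
  -- the constants
  obtain ⟨c', hc'⟩ : ∃ c', c' = max c 0 := ⟨_, rfl⟩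
  have hc0 : 0 ≤ c' := by rw [hc']; exact le_max_right _ _
  have hcc : c ≤ c' := by rw [hc']; exact le_max_left _ _
  have hc4 : c' < (finrank ℚ K : ℝ) / 4 := by
    rw [hc']
    exact max_lt hc (by linarith)
  obtain ⟨E, hE⟩ : ∃ E, E = max C1 1 := ⟨_, rfl⟩
  have hE1 : 1 ≤ E := by rw [hE]; exact le_max_right _ _
  have hCE : C1 ≤ E := by rw [hE]; exact le_max_left _ _
  obtain ⟨B, hB⟩ : ∃ B, B = finrank ℚ K * (ld M + C1 + C2 - ld K) +
    c' * Real.log (finrank ℚ K * E) + C := ⟨_, rfl⟩
  obtain ⟨α, hα⟩ : ∃ α, α = 2 * Real.log 2 * ((finrank ℚ K : ℝ) / 4 - c') := ⟨_, rfl⟩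
  have hα0 : 0 < α := by
    rw [hα]
    exact mul_pos (by linarith) (by linarith)
  obtain ⟨k1, hk1⟩ := exists_nat_ge (B / α)
  obtain ⟨k2, hk2⟩ := exists_nat_ge ((C1 + |C| + 1) / Real.log 2)
  rw [div_le_iff₀ hα0] at hk1
  rw [div_le_iff₀ hlog2] at hk2
  obtain ⟨t, htb, htl, htu, L0, fL0, nL0, aL0, y0, hy0, hfin, hld⟩ := hk (k0 + k1 + k2) (by omega)
  obtain ⟨k, hkk⟩ : ∃ k, k = k0 + k1 + k2 := ⟨_, rfl⟩
  rw [← hkk] at htl htu hld
  have hk1' : B ≤ k * α := by
    refine hk1.trans (mul_le_mul_of_nonneg_right ?_ hα0.le)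
    exact_mod_cast (by omega : k1 ≤ k)
  have hk2' : C1 + |C| + 1 ≤ k * Real.log 2 := by
    refine hk2.trans (mul_le_mul_of_nonneg_right ?_ hlog2.le)
    exact_mod_cast (by omega : k2 ≤ k)
  -- the field generated by the point
  let aK0 : Algebra K L0 := ((algebraMap M L0).comp (algebraMap K M)).toAlgebra
  have tower : IsScalarTower K M L0 := IsScalarTower.of_algebraMap_eq fun _ => rfl
  obtain ⟨x0, hx0⟩ : ∃ x0, x0 = algebraMap M L0 t := ⟨_, rfl⟩
  let L := IntermediateField.adjoin K ({x0, y0} : Set L0)
  have finL0 : FiniteDimensional K L0 := FiniteDimensional.trans K M L0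
  have nL : NumberField L := NumberField.of_module_finite K L
  obtain ⟨x, hx⟩ : ∃ x : L, (x : L0) = x0 :=
    ⟨⟨x0, IntermediateField.subset_adjoin K _ (Set.mem_insert _ _)⟩, rfl⟩
  obtain ⟨y, hy⟩ : ∃ y : L, (y : L0) = y0 :=
    ⟨⟨y0, IntermediateField.subset_adjoin K _ (Set.mem_insert_of_mem _ rfl)⟩, rfl⟩
  have hinj : Function.Injective (algebraMap L L0) := (algebraMap L L0).injective
  -- values of polynomials
  have hpoly : ∀ p : K[X], algebraMap L L0 ((p.map (algebraMap K L)).eval x) =
      algebraMap M L0 ((p.map (algebraMap K M)).eval t) := by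
    intro p
    rw [eval_map, eval_map, hom_eval₂, hom_eval₂, ← hx0]
    change eval₂ _ (x : L0) p = _
    rw [hx]
    rfl
  -- heights
  have hhx : hh x = hh t := by
    have e1 := hh_ext (K := L) L0 x
    have e2 := hh_ext (K := M) L0 t
    have e3 : algebraMap L L0 x = algebraMap M L0 t := by
      change (x : L0) = _
      rw [hx, hx0]
    rw [e3] at e1
    rw [← e1, e2]
  have hhb : hh ((b.map (algebraMap K L)).eval x) = hh ((b.map (algebraMap K M)).eval t) := by
    have e1 := hh_ext (K := L) L0 ((b.map (algebraMap K L)).eval x)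
    have e2 := hh_ext (K := M) L0 ((b.map (algebraMap K M)).eval t)
    rw [hpoly b] at e1
    rw [← e1, e2]
  have hbx : (b.map (algebraMap K L)).eval x ≠ 0 := by
    intro h0
    have e3 := hpoly b
    rw [h0, map_zero] at e3
    apply htb
    apply (algebraMap M L0).injective
    rw [map_zero]
    exact e3.symm
  have hldL : ld L ≤ ld L0 := ld_mono L L0
  refine ⟨L, inferInstance, nL, inferInstance, x, y, ?_, ?_, ?_, hbx, ?_, ?_⟩
  · apply hinj
    change ((y ^ 2 : L) : L0) = _
    rw [SubmonoidClass.coe_pow, hy, hy0]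
    exact (hpoly f).symm
  · refine adjoin_self_top {x0, y0} {x, y} ?_
    rw [Set.image_pair, hx, hy]
  · have e1 : finrank K L ≤ finrank K L0 := by
      have := finrank_mul_finrank K L L0
      have h0 : 0 < finrank L L0 := finrank_pos
      rw [← this]
      exact Nat.le_mul_of_pos_right _ h0
    have e2 := finrank_mul_finrank K M L0
    rw [← e2] at e1
    calc finrank K L ≤ finrank K M * finrank M L0 := e1
      _ ≤ finrank K M * 2 := Nat.mul_le_mul_left _ hfin
      _ = 2 * finrank K M := mul_comm _ _
  · rw [height_eq, hhx]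
    have e1 : |C| + 1 ≤ hh t := by linarith
    have e2 : 1 * (|C| + 1) ≤ finrank ℚ K * hh t :=
      mul_le_mul hn e1 (by positivity) hn0.le
    linarith [le_abs_self C]
  · have e0 := truncated_le (S := S) hbx
    rw [height_eq, hhb] at e0
    have e1 := mul_le_mul_of_nonneg_left (hC2 t) hn0.le
    rw [logDisc_eq, height_eq, hhx]
    have e2 : (finrank ℚ K : ℝ) * (ld L - ld K) ≤ finrank ℚ K * (ld M +
        ((f.natDegree - 1) / 2 - 1 : ℕ) * hh t - k * Real.log 2 / 2 + C1 - ld K) :=
      mul_le_mul_of_nonneg_left (by linarith) hn0.le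
    -- the logarithm of the height
    have e3 : |C| + 1 ≤ hh t := by linarith
    have e4 : 1 ≤ (finrank ℚ K : ℝ) * hh t := by
      have := mul_le_mul hn e3 (by positivity) hn0.le
      linarith [abs_nonneg C]
    have e5 : Real.log (finrank ℚ K * hh t) ≤ Real.log (finrank ℚ K * E) + k * (2 * Real.log 2) := by
      rw [← hlog4, ← Real.log_pow, ← Real.log_mul (mul_pos hn0 (by linarith)).ne' (by positivity)]
      refine Real.log_le_log (by linarith) ?_
      rw [mul_assoc]
      refine mul_le_mul_of_nonneg_left (htu.trans ?_) hn0.le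
      exact mul_le_mul_of_nonneg_right hCE (by positivity)
    have e6 : c * Real.log (finrank ℚ K * hh t) ≤
        c' * (Real.log (finrank ℚ K * E) + k * (2 * Real.log 2)) :=
      (mul_le_mul_of_nonneg_right hcc (Real.log_nonneg e4)).trans
        (mul_le_mul_of_nonneg_left e5 hc0)
    have e7 : (((f.natDegree - 1) / 2 - 1 + b.natDegree : ℕ) : ℝ) =
      ((f.natDegree - 1) / 2 - 1 : ℕ) + b.natDegree := by push_cast; ring
    rw [e7]
    rw [hB, hα] at hk1'
    linarith

end Pool.Agent.Results.MP_44a246_nt.SharpOnHyperelliptic
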