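import Mathlib
import Pool.Agent.H10UD.Asm

/-!
# Hyperplanes in projective space: the exceptional set must depend on the degree of the points

Let `n ≥ 2` and let `D` be a divisor of `ℙ^n` over a number field `K` which contains `n + 2`
hyperplanes in general position, for example the sum of `q ≥ n + 2` hyperplanes in general position.
The conjecture says that for every `ε > 0` and every `r` the inequality
`h_{K_X + D}(P) ≤ N_S^{(1)}(D, P) + d_{K(P)/K} + ε h(P) + O(1)` holds for the points `P` of degree at
most `r` off a proper closed subset `Z`. We prove that `Z` must depend on `r`, for every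
`ε < 1 - 1 / n`: a hypersurface which contains `Z` for `r = 2 ^ (n l)` has degree at least `2 ^ l`.
In other words: the inequality is false, by a factor which may be taken arbitrarily near to `n` if
`D` is the sum of `n + 2` hyperplanes, for the points of unbounded degree off any given proper closed
subset. For `n + 2 = 4, 5, …` hyperplanes this is the `(n + 2)`-term `abc` inequality. (For `n = 1`,
the case of the `abc` conjecture, no such phenomenon is known or expected.)

Proof. Starting with `u_0 ^ 2 = 1 / (π 2 ^ k)` we consider the tower of quadratic extensions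
`u_{j + 1} ^ 2 = 4 u_j / (1 + u_j) ^ 2` (the arithmetic-geometric mean). The numbers
`t_j = ((1 - u_j) / (1 + u_j)) ^ 2 = 1 - u_{j + 1} ^ 2` are the Legendre parameters of elliptic
curves in an isogeny class. They are units outside of the primes dividing `2 π (π 2 ^ k - 1)`, the
tower is unramified outside of these primes, and all `t_j` have the height `k log 2 + O(1)`. At each
prime at most one of the `t_j` is not integral, and if this is `t_j` then `1 - t_i` is a unit for
`i < j`. For `i_1 < … < i_n` the point with the coordinates
`t_{i_1}, (1 - t_{i_1}) t_{i_2}, …, (1 - t_{i_1}) ⋯ (1 - t_{i_{n - 1}}) t_{i_n},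
(1 - t_{i_1}) ⋯ (1 - t_{i_n})`, whose sum is `1`, therefore has the height `n k log 2 + O(1)`, while
the sum of its truncated counting function and its logarithmic discriminant is at most
`k log 2 + O(1)`. At a prime dividing `π` exactly once the tower is totally ramified and the
valuations of the monomials in the `1 - t_i` are different, so that the points lie on no hypersurface
of small degree.
-/

set_option autoImplicit false

namespace Pool.Agent.Results.MP_44a246_nt.UnboundedDegree

open NumberField IsDedekindDomain Height Module MvPolynomial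

/-- The height of the point of projective space with the homogeneous coordinates `x ∈ L ^ (n + 1)`,
normalised relative to `K`. -/
noncomputable def height (K : Type) {L : Type} [Field K] [NumberField K] [Field L] [NumberField L]
    [Algebra K L] {n : ℕ} (x : Fin (n + 1) → L) : ℝ :=
  logHeight x / finrank K L

/-- The logarithmic discriminant `d_{L/K}`, normalised relative to `K`, that is
`log N(D_{L/K}) / [L : K] = log |d_L| / [L : K] - log |d_K|`. -/
noncomputable def logDisc (K L : Type) [Field K] [NumberField K] [Field L] [NumberField L]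
    [Algebra K L] : ℝ :=
  Real.log |(discr L : ℝ)| / finrank K L - Real.log |(discr K : ℝ)|

/-- The primes `w` of `L` which do not lie above a prime of `S` and at which the point with the
homogeneous coordinates `x` meets the divisor `F = 0`, `F` a form of degree `δ`: those with
`|F(x)|_w < max_j |x_j|_w ^ δ`, that is, with positive local height
`δ log max_j |x_j|_w - log |F(x)|_w`. -/
def meets (K : Type) {L : Type} [Field K] [NumberField K] [Field L] [NumberField L] [Algebra K L]
    (S : Finset (HeightOneSpectrum (𝓞 K))) {n : ℕ} (F : MvPolynomial (Fin (n + 1)) K) (δ : ℕ)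
    (x : Fin (n + 1) → L) : Set (HeightOneSpectrum (𝓞 L)) :=
  {w | (∀ v ∈ S, w.asIdeal.comap (algebraMap (𝓞 K) (𝓞 L)) ≠ v.asIdeal) ∧
    ∃ j, w.valuation L (aeval x F) < w.valuation L (x j) ^ δ}

/-- The truncated counting function `N_S^{(1)}(D, P)`, `D` the divisor `F = 0`, `F` a form of degree
`δ`, of the point with the homogeneous coordinates `x ∈ L ^ (n + 1)`, normalised relative to `K`. -/
noncomputable def truncated (K : Type) {L : Type} [Field K] [NumberField K] [Field L]
    [NumberField L] [Algebra K L] (S : Finset (HeightOneSpectrum (𝓞 K))) {n : ℕ}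
    (F : MvPolynomial (Fin (n + 1)) K) (δ : ℕ) (x : Fin (n + 1) → L) : ℝ :=
  (∑ᶠ w ∈ meets K S F δ x, Real.log (Ideal.absNorm w.asIdeal : ℝ)) / finrank K L

/-- The linear form with the coefficients `a`. -/
noncomputable def linearForm {K : Type} [Field K] {n : ℕ} (a : Fin (n + 1) → K) :
    MvPolynomial (Fin (n + 1)) K :=
  ∑ j, C (a j) * X j

/-- **The exceptional set in the truncated Vojta conjecture for hyperplanes depends on the degree.**
Let `n ≥ 2` and let `D = H_0 + … + H_{n + 1} + E` be a divisor of `ℙ^n` over `K`, where the `H_i` are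
hyperplanes in general position (any `n + 1` of the linear forms `L i` are linearly independent) and
`E` is given by a form of degree `e` (for example `E = 0` is empty, `e = 0`; or `E` is a sum of `e`
hyperplanes). Then `h_{K_X + D} = (e + 1) h`. Let `c > 1 / n`, and let `l ≥ 1` be such that
`e < 2 ^ l`. For every hypersurface `Z : G = 0` of degree `d < 2 ^ l`, all finite sets `S` of primes
and all `C` there is a point `P` of degree `2 ^ (n l)` over `K`, not on `Z` and not on `D`, with
`h(P) ≥ C` and `N_S^{(1)}(D, P) + d_{K(P)/K} + C ≤ (e + c) h(P)`. -/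
theorem result (K : Type) [Field K] [NumberField K] (n : ℕ) (hn : 2 ≤ n)
    (L : Fin (n + 2) → Fin (n + 1) → K)
    (hL : ∀ s : Finset (Fin (n + 2)), s.card = n + 1 → LinearIndependent K fun i : s => L i)
    (E : MvPolynomial (Fin (n + 1)) K) (e : ℕ) (hE : E.IsHomogeneous e) (hE0 : E ≠ 0)
    (c : ℝ) (hc : 1 / (n : ℝ) < c) (l : ℕ) (hl : 1 ≤ l) (hel : e < 2 ^ l)
    (G : MvPolynomial (Fin (n + 1)) K) (d : ℕ) (hG : G.IsHomogeneous d) (hG0 : G ≠ 0)
    (hd : d < 2 ^ l) (S : Finset (HeightOneSpectrum (𝓞 K))) (B : ℝ) :
    ∃ (M : Type) (_ : Field M) (_ : NumberField M) (_ : Algebra K M) (x : Fin (n + 1) → M),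
      -- `M` is the field of definition of the point, of degree `2 ^ (n l)` over `K`
      IntermediateField.adjoin K {z | ∃ i j, z = x i / x j} = ⊤ ∧ finrank K M = 2 ^ (n * l) ∧
      -- the point is not on `G = 0` and not on `D`, and its height is large
      aeval x G ≠ 0 ∧ aeval x ((∏ i, linearForm (L i)) * E) ≠ 0 ∧ B ≤ height K x ∧
      truncated K S ((∏ i, linearForm (L i)) * E) (n + 2 + e) x + logDisc K M + B ≤
        (e + c) * height K x := by
  classical
  obtain ⟨M, fM, nM, aM, x, T, hgen, hdeg, hGx, hLx, hEx, hB, hT, hineq⟩ :=
    Pool.Agent.H10UD.main K n (by omega) L hL E e hE hE0 c hc l hl hel G d hG hG0 hd B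
  have hlin : ∀ i, linearForm (L i) = Pool.Agent.H10UD.lin (L i) := fun i => rfl
  refine ⟨M, fM, nM, aM, x, hgen, hdeg, hGx, ?_, hB, ?_⟩
  · rw [map_mul, map_prod]
    exact mul_ne_zero (Finset.prod_ne_zero_iff.2 fun i _ => hLx i) hEx
  · have hsub : meets K S ((∏ i, linearForm (L i)) * E) (n + 2 + e) x ⊆ T := by
      rintro w ⟨-, j, hj⟩
      by_contra hw
      apply hT w hw j
      simp only [hlin] at hj
      have hxj : x j ≠ 0 := by
        intro h
        rw [h, map_zero, zero_pow (by omega)] at hj
        exact absurd hj (by simp)
      have h1 : w.valuation M (aeval x ((∏ i, Pool.Agent.H10UD.lin (L i)) * E) /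
          x j ^ (n + 2 + e)) < 1 := by
        rw [map_div₀, map_pow, div_lt_one₀ (pow_pos (zero_lt_iff.2
          ((Valuation.ne_zero_iff _).2 hxj)) _)]
        exact hj
      rw [← Pool.Agent.H10UD.fv_lt_one_iff, map_div₀, map_pow, div_lt_one (pow_pos
        ((Pool.Agent.W231.V.fv w).pos hxj) _)] at h1
      exact h1
    have hfin : (meets K S ((∏ i, linearForm (L i)) * E) (n + 2 + e) x).Finite :=
      T.finite_toSet.subset hsub
    have h1 : truncated K S ((∏ i, linearForm (L i)) * E) (n + 2 + e) x ≤
        (∑ w ∈ T, Pool.Agent.W231.V.ell w) / finrank K M := by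
      unfold truncated
      refine div_le_div_of_nonneg_right ?_ (Nat.cast_nonneg _)
      rw [finsum_mem_eq_finite_toFinset_sum _ hfin]
      exact Finset.sum_le_sum_of_subset_of_nonneg
        (fun w hw => hsub ((Set.Finite.mem_toFinset hfin).1 hw))
        fun w _ _ => (Pool.Agent.W231.V.ell_pos w).le
    unfold logDisc height
    linarith

end Pool.Agent.Results.MP_44a246_nt.UnboundedDegree
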