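import Mathlib
import Pool.Agent.H10PC.Fin

/-!
# Products of curves: the exceptional set must depend on the degree of the points

Let `K` be a number field and let `C_1, …, C_n` be curves over `K`, given by equations
`F_i(x, y) = 0`, monic in `y` of degree `m_i` and separable over `K(x)` (every curve is birational to
such a curve; for the interpretation suppose that the `F_i` are absolutely irreducible, and let `C_i`
be the smooth projective model). Let `D_i` be any finite set of points of `C_i`, for example the
empty set; it is contained in the set of the points above `x = ∞` and above the zeros of a polynomial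
`R_i ≠ 0`. On `X = C_1 × … × C_n` we consider the normal crossings divisor `D = ∑ pr_i^* D_i`. Then
`h_{K_X + D}(P) = ∑_i (2 g_i - 2 + deg D_i) / m_i · h(x_i) + O(∑_i √h(x_i) + 1)`.

By Belyi's theorem (proved here) there is a polynomial `β_i` in `x` such that the map `β_i(x)` of
degree `m_i deg β_i` from `C_i` to the line is unramified outside of `0, 1, ∞` and such that `D_i`
lies over `0, 1, ∞`. We prove: if `c_i ≥ 0` and `∑ c_i / deg β_i > 1` then there are, off any given
proper closed subset (every proper closed subset of `X` is contained in a set `g(x_1, …, x_n) = 0`)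
and for all `S` and `B`, points `P` of `X` of degree bounded in terms of the closed subset, with
large `h(x_i)`, such that `N_S^{(1)}(D, P) + d_{K(P)/K} + B ≤ ∑ c_i h(x_i)`. With
`c_i = η (2 g_i - 2 + deg D_i) / m_i` this says that the inequality of the conjecture fails for the
points of unbounded degree off any given proper closed subset for all `ε < 1 - η` if
`η ∑ (2 g_i - 2 + deg D_i) / (m_i deg β_i) > 1`: the exceptional set has to depend on the bound `r`
for the degree.

* For every curve `C` with `2 g - 2 + deg D_C > 0`, for example for every curve of genus at least two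
  and `D_C = 0`, this is the case on `X = C ^ n` for all large `n`, and `η` tends to zero if `n` tends
  to infinity. These `X` are compact, with `D = 0` and ample canonical divisor.
* For the Fermat curve of degree `m` one may take `β = x ^ m`. So for `D = 0` this is the case on the
  product of `n ≥ 2` Fermat curves of degree `m` with `n (m - 3) > m`, for example on the surface
  `C × C` if `m ≥ 7`, and if `D_C` consists of the points with `x y = 0` and the points at infinity,
  then it is the case for all `n ≥ 2` and `m ≥ 1`, and the factor is near to `n`.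

Proof. Starting with `u_0 ^ 2 = 1 / (π 2 ^ k)` we consider the tower of quadratic extensions
`u_{j + 1} ^ 2 = 4 u_j / (1 + u_j) ^ 2` (the arithmetic-geometric mean). The numbers
`t_j = ((1 - u_j) / (1 + u_j)) ^ 2` are the Legendre parameters of elliptic curves in an isogeny
class; the `t_j` and `1 - t_j` are units, and the tower is unramified, outside of the primes dividing
`2 π (π 2 ^ k - 1)`, and all `t_j` have the height `k log 2 + O(1)`. We take points of the `C_i` with
`β_i(x_i) = t_{j_i}`. The field generated by them is unramified outside of the primes dividing a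
constant and `2 π (π 2 ^ k - 1)`, so that its discriminant together with the truncated counting
functions of all the `D_i` is at most `k log 2 + O(1)`, while `h(x_i) = k log 2 / deg β_i + O(1)`.
-/

set_option autoImplicit false

namespace Pool.Agent.Results.MP_44a246_nt.UnboundedDegreeOnProducts

open NumberField IsDedekindDomain Height Module Polynomial

/-- The Weil height of `x ∈ L`, that is of the point `(x : 1)` of the line, normalised relative to
`K`. -/
noncomputable def height (K : Type) {L : Type} [Field K] [NumberField K] [Field L] [NumberField L]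
    [Algebra K L] (x : L) : ℝ :=
  logHeight₁ x / finrank K L

/-- The logarithmic discriminant `d_{L/K}`, normalised relative to `K`, that is
`log N(D_{L/K}) / [L : K] = log |d_L| / [L : K] - log |d_K|`. -/
noncomputable def logDisc (K L : Type) [Field K] [NumberField K] [Field L] [NumberField L]
    [Algebra K L] : ℝ :=
  Real.log |(discr L : ℝ)| / finrank K L - Real.log |(discr K : ℝ)|

/-- The primes `w` of `L` which do not lie above a prime of `S` and at which the point with the
coordinates `(x_i, y_i)` meets the divisor `D` of all points with `x_i = ∞` or `R_i(x_i) = 0` for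
some `i`: those with `|x_i|_w > 1` or `|R_i(x_i)|_w < 1` for some `i`. -/
def meets (K : Type) {L : Type} [Field K] [NumberField K] [Field L] [NumberField L] [Algebra K L]
    (S : Finset (HeightOneSpectrum (𝓞 K))) {n : ℕ} (R : Fin n → K[X]) (x : Fin n → L) :
    Set (HeightOneSpectrum (𝓞 L)) :=
  {w | (∀ v ∈ S, w.asIdeal.comap (algebraMap (𝓞 K) (𝓞 L)) ≠ v.asIdeal) ∧
    ∃ i, 1 < w.valuation L (x i) ∨ w.valuation L (aeval (x i) (R i)) < 1}

/-- The truncated counting function `N_S^{(1)}(D, P)` of the divisor `D` of all points with
`x_i = ∞` or `R_i(x_i) = 0` for some `i`, normalised relative to `K`. -/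
noncomputable def truncated (K : Type) {L : Type} [Field K] [NumberField K] [Field L]
    [NumberField L] [Algebra K L] (S : Finset (HeightOneSpectrum (𝓞 K))) {n : ℕ}
    (R : Fin n → K[X]) (x : Fin n → L) : ℝ :=
  (∑ᶠ w ∈ meets K S R x, Real.log (Ideal.absNorm w.asIdeal : ℝ)) / finrank K L

/-- The polynomial `β` is not constant, its critical points and the zeros of `R` lie over `0` and
`1`, and `F(x, y) = 0` is unramified over the line of `x` outside of the `x` over `0` and `1` (as a
power of `β (β - 1)` is a combination of `F` and of the derivative of `F` with respect to `y`). -/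
def IsBelyi {K : Type} [Field K] (β R : K[X]) (F : K[X][X]) : Prop :=
  0 < β.natDegree ∧ ∃ N : ℕ, R * derivative β ∣ (β * (β - 1)) ^ N ∧
    C ((β * (β - 1)) ^ N) ∈ Ideal.span {F, derivative F}

/-- **The exceptional set in the truncated Vojta conjecture for products of curves depends on the
degree.**

1. (Belyi) For every `F` separable over `K(x)` and every `R ≠ 0` there is a `β` with the property
   above.
2. For the Fermat curve `x ^ m + y ^ m = 1` and `R = x (x ^ m - 1)` one may take `β = x ^ m`.
3. Let the curves `C_i` be given by `F_i(x, y) = 0`, `F_i` monic in `y` of positive degree, and let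
   `β_i` and `R_i` be as above. Let `c_i ≥ 0` and `∑ c_i / deg β_i > 1`. For every polynomial
   `g ≠ 0` in `n` variables there is an `r` such that for all finite sets `S` of primes of `K` and
   all `B` there is a point `P = (x_i, y_i)_i` of the product of the `C_i` of degree at most `r`
   over `K`, with `g(x_1, …, x_n) ≠ 0`, not on `D`, with `h(x_i) ≥ B` for all `i`, and
   `N_S^{(1)}(D, P) + d_{K(P)/K} + B ≤ ∑ c_i h(x_i)`. -/
theorem result (K : Type) [Field K] [NumberField K] :
    (∀ (F : K[X][X]) (R : K[X]), (F.map (algebraMap K[X] (RatFunc K))).Separable → R ≠ 0 →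
      ∃ β, IsBelyi β R F) ∧
    (∀ m : ℕ, 1 ≤ m → IsBelyi (X ^ m : K[X]) (X ^ (m + 1) - X) (X ^ m + C (X ^ m - 1))) ∧
    ∀ (n : ℕ) (F : Fin n → K[X][X]) (R β : Fin n → K[X]),
      (∀ i, (F i).Monic ∧ 0 < (F i).natDegree) → (∀ i, IsBelyi (β i) (R i) (F i)) →
      ∀ c : Fin n → ℝ, (∀ i, 0 ≤ c i) → 1 < ∑ i, c i / (β i).natDegree →
      ∀ g : MvPolynomial (Fin n) K, g ≠ 0 →
      ∃ r : ℕ, ∀ (S : Finset (HeightOneSpectrum (𝓞 K))) (B : ℝ),
        ∃ (M : Type) (_ : Field M) (_ : NumberField M) (_ : Algebra K M) (x y : Fin n → M),
          -- `M` is the field of definition of the point, of degree at most `r`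
          IntermediateField.adjoin K (Set.range x ∪ Set.range y) = ⊤ ∧ finrank K M ≤ r ∧
          -- the point lies on the product of the curves, not on `g = 0` and not on `D`
          (∀ i, aevalAeval (x i) (y i) (F i) = 0) ∧ MvPolynomial.aeval x g ≠ 0 ∧
          (∀ i, aeval (x i) (R i) ≠ 0) ∧ (∀ i, B ≤ height K (x i)) ∧
          truncated K S R x + logDisc K M + B ≤ ∑ i, c i * height K (x i) := by
  classical
  refine ⟨fun F R hF hR => Pool.Agent.H10PC.exists_ctrl K hF hR,
    fun m hm => Pool.Agent.H10PC.fermat_ctrl K hm, ?_⟩
  intro n F R β hF hβ c hc hc1 g hg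
  have hn : 1 ≤ n := by
    rcases Nat.eq_zero_or_pos n with rfl | h
    · exfalso
      simp only [Finset.univ_eq_empty, Finset.sum_empty] at hc1
      linarith
    · exact h
  obtain ⟨r, hr⟩ := Pool.Agent.H10PC.main K n hn F R β hF hβ c hc hc1 g hg
  refine ⟨r, fun S B => ?_⟩
  obtain ⟨M, fM, nM, aM, x, y, T, hgen, hdeg, hFx, hgx, hRx, hB, hT, hineq⟩ := hr B
  refine ⟨M, fM, nM, aM, x, y, hgen, hdeg, hFx, hgx, hRx, hB, ?_⟩
  have hsub : meets K S R x ⊆ T := by
    rintro w ⟨-, i, hi⟩
    by_contra hw
    obtain ⟨h1, h2⟩ := hT w hw i
    rcases hi with hi | hi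
    · rw [Pool.Agent.H10VJ.fv_le_one_iff] at h1
      exact absurd h1 (not_le.2 hi)
    · rw [Pool.Agent.H10UD.fv_eq_one_iff] at h2
      exact absurd h2 hi.ne
  have hfin : (meets K S R x).Finite := T.finite_toSet.subset hsub
  have h1 : truncated K S R x ≤ (∑ w ∈ T, Pool.Agent.W231.V.ell w) / finrank K M := by
    unfold truncated
    refine div_le_div_of_nonneg_right ?_ (Nat.cast_nonneg _)
    rw [finsum_mem_eq_finite_toFinset_sum _ hfin]
    exact Finset.sum_le_sum_of_subset_of_nonneg
      (fun w hw => hsub ((Set.Finite.mem_toFinset hfin).1 hw))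
      fun w _ _ => (Pool.Agent.W231.V.ell_pos w).le
  unfold logDisc height
  linarith

end Pool.Agent.Results.MP_44a246_nt.UnboundedDegreeOnProducts
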